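import Pool.Agent.FTU.Stmts

/-!
# FTU, row GOD
-/

set_option autoImplicit false

open MeasureTheory Complex

namespace Pool.Agent.FTU.H35

open Pool.Agent.Helper49_Pauli Pool.Agent.MBX Pool.Agent.FTU

theorem mem_mom {cut L : ℝ} {n : Fin 3 → ℤ} (h : n ∈ momenta cut L) :
    n ≠ 0 ∧ freq L n < cut := by
  classical
  unfold momenta at h
  split_ifs at h with h1
  · simpa using h
  · simp at h

theorem freq_pos {L : ℝ} (hL : 0 < L) {n : Fin 3 → ℤ} (h : n ≠ 0) : 0 < freq L n := by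
  unfold freq
  apply Real.sqrt_pos.mpr
  unfold Pool.Agent.Helper49_Pauli.sq wave
  obtain ⟨j, hj⟩ := Function.ne_iff.mp h
  have hj2 : (n j : ℝ) ≠ 0 := by
    have : n j ≠ 0 := hj
    exact_mod_cast this
  have h2 : 0 < 2 * Real.pi / L := by positivity
  apply Finset.sum_pos'
  · intro i _
    positivity
  · exact ⟨j, Finset.mem_univ _, by positivity⟩

theorem wave_le {L : ℝ} (n : Fin 3 → ℤ) (j : Fin 3) : |wave L n j| ≤ freq L n := by
  unfold freq
  apply Real.abs_le_sqrt
  unfold Pool.Agent.Helper49_Pauli.sq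
  exact Finset.single_le_sum (f := fun j => wave L n j ^ 2) (fun i _ => sq_nonneg _)
    (Finset.mem_univ j)

theorem sum_mode {cut L : ℝ} (F : (Fin 3 → ℤ) → ℝ) :
    ∑ i : Mode cut L, F i.1 = 2 * ∑ n ∈ momenta cut L, F n := by
  rw [Fintype.sum_prod_type, Finset.mul_sum, ← Finset.sum_coe_sort (momenta cut L)]
  apply Finset.sum_congr rfl
  intro x _
  simp [two_mul]

/-- ROW GOD -/
theorem god (h1 : LatStmt) (h2 : BslStmt) : GodStmt := by
  intro alpha ha
  obtain ⟨C1, hC1, h1⟩ := h1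
  obtain ⟨C2, hC2, h2⟩ := h2
  refine ⟨2 * alpha * (C1 + C2), by positivity, ?_⟩
  intro cut L hcut hL P
  have hcL : 0 < L * cut := mul_pos hL hcut
  have hmode : ∀ i : Mode cut L, (i.1 : Fin 3 → ℤ) ≠ 0 ∧ freq L i.1 < cut := fun i => mem_mom i.1.2
  have hom : ∀ i : Mode cut L, 0 < om i := fun i => freq_pos hL (hmode i).1
  have hc2 : ∀ i : Mode cut L, (msys alpha P).c i ^ 2 = alpha / (L ^ 3 * om i * cut ^ 2) := by
    intro i
    have h3 : 0 < L ^ 3 * om i := mul_pos (by positivity) (hom i)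
    show (Real.sqrt alpha * (1 / Real.sqrt (L ^ 3 * om i)) / cut) ^ 2 = _
    rw [div_pow, mul_pow, div_pow, Real.sq_sqrt ha.le, Real.sq_sqrt h3.le, one_pow]
    have h4 := hom i
    field_simp
  refine ⟨?_, ?_, ?_, ?_, ?_, ?_⟩
  · intro i j
    show |wave L i.1 j / cut| ≤ 1
    rw [abs_div, abs_of_pos hcut, div_le_one hcut]
    exact (wave_le _ _).trans (hmode i).2.le
  · intro i j
    show |P.e i.1 i.2 j| ≤ 1
    have h3 := P.orthonormal i.1 (hmode i).1 i.2 i.2
    rw [if_pos rfl] at h3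
    unfold dot at h3
    rw [← sq_le_one_iff_abs_le_one, ← h3]
    have h4 := Finset.single_le_sum (f := fun j => P.e i.1 i.2 j * P.e i.1 i.2 j)
      (fun i _ => mul_self_nonneg _) (Finset.mem_univ j)
    simpa [pow_two] using h4
  · intro i
    exact div_pos (hom i) hcut
  · intro i
    show om i / cut ≤ 1
    rw [div_le_one hcut]
    exact (hmode i).2.le
  · have h3 : ∑ i : Mode cut L, (msys alpha P).c i ^ 2 / (msys alpha P).w i =
        ∑ i : Mode cut L, alpha / (L * cut) ^ 3 * (cut / freq L i.1) ^ 2 := by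
      apply Finset.sum_congr rfl
      intro i _
      rw [hc2]
      show alpha / (L ^ 3 * om i * cut ^ 2) / (om i / cut) = alpha / (L * cut) ^ 3 * (cut / om i) ^ 2
      have h4 := hom i
      field_simp
    rw [h3, sum_mode (fun n => alpha / (L * cut) ^ 3 * (cut / freq L n) ^ 2), ← Finset.mul_sum]
    have h5 := h1 cut L hcut hL
    have h6 : alpha / (L * cut) ^ 3 * ∑ n ∈ momenta cut L, (cut / freq L n) ^ 2 ≤
        alpha / (L * cut) ^ 3 * (C1 * (L * cut) ^ 3) :=
      mul_le_mul_of_nonneg_left h5 (by positivity)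
    have h7 : alpha / (L * cut) ^ 3 * (C1 * (L * cut) ^ 3) = alpha * C1 := by
      field_simp
    rw [h7] at h6
    have h8 : 0 < alpha * C2 := by positivity
    linarith
  · intro g a b hg hab hba
    have h3 : ∑ i : Mode cut L, (msys alpha P).w i * (msys alpha P).c i ^ 2 *
        ‖∫ s in a..b, (g s : ℂ) * cexp (I * (((msys alpha P).k i 2 * s : ℝ) : ℂ))‖ ^ 2 =
        ∑ i : Mode cut L, alpha / (L * cut) ^ 3 *
        ‖∫ s in a..b, (g s : ℂ) * cexp (I * ((wave L i.1 2 / cut * s : ℝ) : ℂ))‖ ^ 2 := by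
      apply Finset.sum_congr rfl
      intro i _
      have h4 : (msys alpha P).w i * (msys alpha P).c i ^ 2 = alpha / (L * cut) ^ 3 := by
        rw [hc2]
        show om i / cut * (alpha / (L ^ 3 * om i * cut ^ 2)) = _
        have h4 := hom i
        field_simp
      rw [h4]
      rfl
    rw [h3, sum_mode (fun n => alpha / (L * cut) ^ 3 *
        ‖∫ s in a..b, (g s : ℂ) * cexp (I * ((wave L n 2 / cut * s : ℝ) : ℂ))‖ ^ 2),
        ← Finset.mul_sum]
    have h5 := h2 cut L hcut hL g a b hg hab hba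
    have h6 := mul_le_mul_of_nonneg_left h5 (show 0 ≤ alpha / (L * cut) ^ 3 by positivity)
    have hI : 0 ≤ ∫ s in a..b, g s ^ 2 :=
      intervalIntegral.integral_nonneg hab (fun s _ => sq_nonneg _)
    have h7 : alpha / (L * cut) ^ 3 * (C2 * (L * cut) ^ 3 * ∫ s in a..b, g s ^ 2) =
        alpha * C2 * ∫ s in a..b, g s ^ 2 := by
      field_simp
    rw [h7] at h6
    have h8 : 0 ≤ alpha * C1 * ∫ s in a..b, g s ^ 2 := by positivity
    nlinarith

end Pool.Agent.FTU.H35
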