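import Pool.Agent.FTU.Stmts

/-!
# FTU, row TPM
-/

set_option autoImplicit false

open MeasureTheory Complex

namespace Pool.Agent.FTU.H35

open Pool.Agent.Helper49_Pauli Pool.Agent.MBX Pool.Agent.FTU

theorem int_exp {ell : ℝ} (hl : 0 < ell) (k : ℤ) :
    ∫ s in (0 : ℝ)..ell, cexp (I * ((2 * Real.pi / ell * k * s : ℝ) : ℂ)) =
      if k = 0 then (ell : ℂ) else 0 := by
  split_ifs with hk
  · subst hk
    simp
  · have hl2 : (ell : ℂ) ≠ 0 := by exact_mod_cast hl.ne'
    have hk2 : (k : ℂ) ≠ 0 := by exact_mod_cast hk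
    have hpi : (Real.pi : ℂ) ≠ 0 := by exact_mod_cast Real.pi_ne_zero
    have hc : I * (2 * Real.pi / ell * k) ≠ 0 := by
      apply mul_ne_zero I_ne_zero
      apply mul_ne_zero _ hk2
      exact div_ne_zero (mul_ne_zero two_ne_zero hpi) hl2
    have h1 : ∀ s : ℝ, cexp (I * ((2 * Real.pi / ell * k * s : ℝ) : ℂ)) =
        cexp (I * (2 * Real.pi / ell * k) * s) := by
      intro s
      congr 1
      push_cast
      ring
    simp_rw [h1]
    rw [integral_exp_mul_complex hc]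
    have h2 : I * (2 * Real.pi / ell * k) * (ell : ℂ) = k * (2 * Real.pi * I) := by
      field_simp
    rw [h2, exp_int_mul_two_pi_mul_I]
    simp

theorem parseval {ell : ℝ} (hl : 0 < ell) (S : Finset ℤ) (r : ℤ → ℂ) :
    ∫ s in (0 : ℝ)..ell, ‖∑ m ∈ S, r m * cexp (I * ((2 * Real.pi / ell * m * s : ℝ) : ℂ))‖ ^ 2 =
      ell * ∑ m ∈ S, ‖r m‖ ^ 2 := by
  have hC : ((∫ s in (0 : ℝ)..ell,
      ‖∑ m ∈ S, r m * cexp (I * ((2 * Real.pi / ell * m * s : ℝ) : ℂ))‖ ^ 2 : ℝ) : ℂ) =
      ((ell * ∑ m ∈ S, ‖r m‖ ^ 2 : ℝ) : ℂ) := by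
    rw [← intervalIntegral.integral_ofReal]
    have h1 : ∀ s : ℝ,
        ((‖∑ m ∈ S, r m * cexp (I * ((2 * Real.pi / ell * m * s : ℝ) : ℂ))‖ ^ 2 : ℝ) : ℂ) =
        ∑ m ∈ S, ∑ n ∈ S, r m * (starRingEnd ℂ) (r n) *
          cexp (I * ((2 * Real.pi / ell * ((m - n : ℤ) : ℝ) * s : ℝ) : ℂ)) := by
      intro s
      rw [ofReal_pow, ← mul_conj', map_sum, Finset.sum_mul_sum]
      apply Finset.sum_congr rfl
      intro m _
      apply Finset.sum_congr rfl
      intro n _
      rw [map_mul, ← exp_conj, map_mul, conj_I, conj_ofReal]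
      have h2 : cexp (I * ((2 * Real.pi / ell * ((m - n : ℤ) : ℝ) * s : ℝ) : ℂ)) =
          cexp (I * ((2 * Real.pi / ell * m * s : ℝ) : ℂ)) *
            cexp (-I * ((2 * Real.pi / ell * n * s : ℝ) : ℂ)) := by
        rw [← Complex.exp_add]
        congr 1
        push_cast
        ring
      rw [h2]
      ring
    simp_rw [h1]
    have hcont : ∀ m n : ℤ, Continuous fun s : ℝ => r m * (starRingEnd ℂ) (r n) *
          cexp (I * ((2 * Real.pi / ell * ((m - n : ℤ) : ℝ) * s : ℝ) : ℂ)) := by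
      intro m n
      fun_prop
    rw [intervalIntegral.integral_finsetSum (fun m _ =>
      (continuous_finsetSum _ (fun n _ => hcont m n)).intervalIntegrable _ _)]
    have hR : ((ell * ∑ m ∈ S, ‖r m‖ ^ 2 : ℝ) : ℂ) = ∑ m ∈ S, (ell : ℂ) * (‖r m‖ : ℂ) ^ 2 := by
      push_cast
      rw [Finset.mul_sum]
    rw [hR]
    apply Finset.sum_congr rfl
    intro m hm
    rw [intervalIntegral.integral_finsetSum (fun n _ => (hcont m n).intervalIntegrable _ _)]
    rw [Finset.sum_eq_single_of_mem m hm]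
    · rw [intervalIntegral.integral_const_mul, int_exp hl, if_pos (sub_self m), mul_conj']
      ring
    · intro n _ hn
      rw [intervalIntegral.integral_const_mul, int_exp hl, if_neg (by
        intro h
        exact hn (by omega)), mul_zero]
  exact_mod_cast hC

/-- ROW TPM -/
theorem tpm : TpmStmt := by
  classical
  intro ell hl
  refine ⟨?_, ?_⟩
  · intro K K' B B' f hK hB hf
    obtain ⟨p, h1, h2⟩ := hf
    have hsub : Finset.Icc (-(K : ℤ)) K ⊆ Finset.Icc (-(K' : ℤ)) K' := by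
      apply Finset.Icc_subset_Icc <;> omega
    refine ⟨fun n => if n ∈ Finset.Icc (-(K : ℤ)) K then p n else 0, ?_, ?_⟩
    · intro s
      rw [h1 s, ← Finset.sum_subset hsub]
      · apply Finset.sum_congr rfl
        intro n hn
        simp only [if_pos hn]
      · intro n _ hn
        simp only [if_neg hn, zero_mul]
    · rw [← Finset.sum_subset hsub]
      · refine le_trans (le_of_eq ?_) (h2.trans hB)
        apply Finset.sum_congr rfl
        intro n hn
        simp only [if_pos hn]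
      · intro n _ hn
        simp only [if_neg hn]
        simp
  · intro K K' B B' G f g hf hg hG
    obtain ⟨p, h1, h2⟩ := hf
    obtain ⟨q, h3, h4⟩ := hg
    set E : ℤ → ℝ → ℂ := fun n s => cexp (I * ((2 * Real.pi / ell * n * s : ℝ) : ℂ)) with hE
    set SS := Finset.Icc (-(K : ℤ)) K ×ˢ Finset.Icc (-(K' : ℤ)) K' with hSS
    set T := Finset.Icc (-((K + K' : ℕ) : ℤ)) ((K + K' : ℕ) : ℤ) with hT
    have hmap : ∀ x ∈ SS, x.1 + x.2 ∈ T := by
      intro x hx
      rw [hSS, Finset.mem_product, Finset.mem_Icc, Finset.mem_Icc] at hx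
      rw [hT, Finset.mem_Icc]
      push_cast
      constructor <;> omega
    set r : ℤ → ℂ := fun m => ∑ x ∈ SS with x.1 + x.2 = m, p x.1 * q x.2 with hr
    have hprod : ∀ s : ℝ, ((f s * g s : ℝ) : ℂ) = ∑ m ∈ T, r m * E m s := by
      intro s
      rw [ofReal_mul, h1 s, h3 s, Finset.sum_mul_sum, ← Finset.sum_product',
        ← Finset.sum_fiberwise_of_maps_to hmap]
      apply Finset.sum_congr rfl
      intro m _
      simp only [hr]
      rw [Finset.sum_mul]
      apply Finset.sum_congr rfl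
      intro x hx
      rw [Finset.mem_filter] at hx
      have h5 : E m s = cexp (I * ((2 * Real.pi / ell * x.1 * s : ℝ) : ℂ)) *
          cexp (I * ((2 * Real.pi / ell * x.2 * s : ℝ) : ℂ)) := by
        simp only [hE]
        rw [← Complex.exp_add, ← hx.2]
        congr 1
        push_cast
        ring
      rw [h5]
      ring
    refine ⟨r, hprod, ?_⟩
    have hP1 := parseval hl T r
    have hP2 := parseval hl (Finset.Icc (-(K : ℤ)) K) p
    have h5 : ∀ s : ℝ, ‖∑ m ∈ T, r m * cexp (I * ((2 * Real.pi / ell * m * s : ℝ) : ℂ))‖ ^ 2 =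
        (f s * g s) ^ 2 := by
      intro s
      have := hprod s
      rw [hE] at this
      rw [← this, norm_real, Real.norm_eq_abs, sq_abs]
    have h6 : ∀ s : ℝ, ‖∑ n ∈ Finset.Icc (-(K : ℤ)) K,
        p n * cexp (I * ((2 * Real.pi / ell * n * s : ℝ) : ℂ))‖ ^ 2 = f s ^ 2 := by
      intro s
      rw [← h1 s, norm_real, Real.norm_eq_abs, sq_abs]
    have hc1 : Continuous fun s : ℝ => (f s * g s) ^ 2 := by
      simp_rw [← h5]
      fun_prop
    have hc2 : Continuous fun s : ℝ => f s ^ 2 := by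
      simp_rw [← h6]
      fun_prop
    simp_rw [h5] at hP1
    simp_rw [h6] at hP2
    have h7 : ∫ s in (0 : ℝ)..ell, (f s * g s) ^ 2 ≤ ∫ s in (0 : ℝ)..ell, G ^ 2 * f s ^ 2 := by
      apply intervalIntegral.integral_mono_on hl.le (hc1.intervalIntegrable _ _)
        ((continuous_const.mul hc2).intervalIntegrable _ _)
      intro s _
      have h8 : g s ^ 2 ≤ G ^ 2 := by
        rw [← sq_abs (g s)]
        exact pow_le_pow_left₀ (abs_nonneg _) (hG s) 2
      rw [mul_pow, mul_comm]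
      exact mul_le_mul_of_nonneg_right h8 (sq_nonneg _)
    rw [intervalIntegral.integral_const_mul, hP1, hP2] at h7
    have h8 : G ^ 2 * ∑ n ∈ Finset.Icc (-(K : ℤ)) K, ‖p n‖ ^ 2 ≤ G ^ 2 * B :=
      mul_le_mul_of_nonneg_left h2 (sq_nonneg _)
    have h9 : ell * ∑ m ∈ T, ‖r m‖ ^ 2 ≤ ell * (G ^ 2 * B) := by
      calc ell * ∑ m ∈ T, ‖r m‖ ^ 2 ≤ G ^ 2 * (ell * ∑ n ∈ Finset.Icc (-(K : ℤ)) K, ‖p n‖ ^ 2) := h7
        _ = ell * (G ^ 2 * ∑ n ∈ Finset.Icc (-(K : ℤ)) K, ‖p n‖ ^ 2) := by ring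
        _ ≤ _ := mul_le_mul_of_nonneg_left h8 hl.le
    exact le_of_mul_le_mul_left h9 hl

end Pool.Agent.FTU.H35
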